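import Mathlib
import Pool.Agent.Y791.LP.Stm

/-!
# Polynomials of degree at most one (helper93)
-/

set_option autoImplicit false

open Polynomial Finset

namespace Pool.Agent.Y791.LP.Lin

open Pool.Agent.Results.MP_a804c6_nt.LinkedExponents Pool.Agent.Y791.LP

theorem lin_sum {s m : ℕ} (p : ℚ) (G : Fin s → ℚ) (π : Fin s → Fin m) (δ e : Fin s → ℕ)
    (hδ : ∀ j, δ j ≤ 1) (n : Fin m → ℕ) :
    ∑ j, G j * p ^ (e j + δ j * n (π j)) =
      ∑ i, (∑ j, if δ j = 1 ∧ π j = i then G j * p ^ (e j) else 0) * p ^ (n i) +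
        ∑ j, if δ j = 0 then G j * p ^ (e j) else 0 := by
  have h1 : ∀ i, (∑ j, if δ j = 1 ∧ π j = i then G j * p ^ (e j) else 0) * p ^ (n i) =
      ∑ j, if π j = i then (if δ j = 1 then G j * p ^ (e j) * p ^ (n (π j)) else 0) else 0 := by
    intro i
    rw [Finset.sum_mul]
    refine Finset.sum_congr rfl fun j _ => ?_
    by_cases h : π j = i
    · subst h
      by_cases h2 : δ j = 1 <;> simp [h2]
    · simp [h]
  rw [Finset.sum_congr rfl fun i _ => h1 i, Finset.sum_comm]
  have h2 : ∀ j, (∑ i, if π j = i then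
      (if δ j = 1 then G j * p ^ (e j) * p ^ (n (π j)) else 0) else 0) =
      (if δ j = 1 then G j * p ^ (e j) * p ^ (n (π j)) else 0) := by
    intro j
    rw [Finset.sum_ite_eq]
    simp
  rw [Finset.sum_congr rfl fun j _ => h2 j, ← Finset.sum_add_distrib]
  refine Finset.sum_congr rfl fun j _ => ?_
  have h3 : δ j = 0 ∨ δ j = 1 := by
    have := hδ j
    omega
  rcases h3 with h | h
  · simp [h]
  · simp [h, pow_add, mul_assoc]

theorem isP {s : ℕ} (p : ℕ) (G : Fin s → ℚ) (B : ℚ) {K : Set (Fin s → ℕ)} (hK : Linked K) :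
    IsPSumSet p {x | ∃ k ∈ K, x = ∑ j, G j * (p : ℚ) ^ (k j) - B} := by
  obtain ⟨m, π, δ, e, hδ, rfl⟩ := hK
  refine ⟨m + 1, by omega,
    Fin.snoc (α := fun _ => ℚ)
      (fun i => ∑ j, if δ j = 1 ∧ π j = i then G j * (p : ℚ) ^ (e j) else 0)
      ((∑ j, if δ j = 0 then G j * (p : ℚ) ^ (e j) else 0) - B),
    Fin.snoc (α := fun _ => ℕ) (fun _ => 1) 0, ?_⟩
  ext x
  constructor
  · rintro ⟨k, ⟨n, hn⟩, rfl⟩
    refine ⟨Fin.snoc (α := fun _ => ℕ) n 0, ?_⟩
    rw [Fin.sum_univ_castSucc]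
    simp only [Fin.snoc_castSucc, Fin.snoc_last, one_mul, zero_mul, pow_zero, mul_one]
    have h1 : ∑ j, G j * (p : ℚ) ^ (k j) = ∑ j, G j * (p : ℚ) ^ (e j + δ j * n (π j)) :=
      Finset.sum_congr rfl fun j _ => by rw [hn j]
    rw [h1, lin_sum _ _ _ _ _ hδ n]
    ring
  · rintro ⟨n, rfl⟩
    refine ⟨fun j => e j + δ j * n (π j).castSucc, ⟨fun i => n i.castSucc, fun j => rfl⟩, ?_⟩
    rw [Fin.sum_univ_castSucc]
    simp only [Fin.snoc_castSucc, Fin.snoc_last, one_mul, zero_mul, pow_zero, mul_one]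
    rw [lin_sum (p : ℚ) G π δ e hδ (fun i => n i.castSucc)]
    ring

/-- the linear equations over the rationals -/
theorem exists_eqs {V : Type*} [AddCommGroup V] [Module ℚ V] {s : ℕ} (h : Fin s → V) (h0 : V) :
    ∃ (r : ℕ) (v : Fin s → Fin r → ℤ) (w : Fin r → ℤ), ∀ (p : ℕ) (k : Fin s → ℕ),
      ∑ j, ((p : ℚ) ^ (k j)) • h j = h0 ↔ ∀ i, ∑ j, (p : ℤ) ^ (k j) * v j i = w i := by
  let W : Submodule ℚ V := Submodule.span ℚ (Set.range fun o : Option (Fin s) => o.elim h0 h)
  have hfin : FiniteDimensional ℚ W := FiniteDimensional.span_of_finite ℚ (Set.finite_range _)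
  have hm : ∀ o : Option (Fin s), o.elim h0 h ∈ W := fun o => Submodule.subset_span ⟨o, rfl⟩
  let H : Option (Fin s) → W := fun o => ⟨o.elim h0 h, hm o⟩
  let b := Module.finBasis ℚ W
  obtain ⟨D, hD⟩ := IsLocalization.exist_integer_multiples_of_finite (nonZeroDivisors ℤ)
    (fun x : Option (Fin s) × Fin (Module.finrank ℚ W) => (b.repr (H x.1) x.2 : ℚ))
  choose z hz using hD
  have hD0 : ((D : ℤ) : ℚ) ≠ 0 := by
    have := nonZeroDivisors.ne_zero D.2
    exact_mod_cast this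
  have hz' : ∀ x, (z x : ℚ) = ((D : ℤ) : ℚ) * b.repr (H x.1) x.2 := by
    intro x
    have h1 := hz x
    rw [zsmul_eq_mul] at h1
    exact h1
  refine ⟨Module.finrank ℚ W, fun j i => z (some j, i), fun i => z (none, i), fun p k => ?_⟩
  have e1 : (∑ j, ((p : ℚ) ^ (k j)) • h j = h0) ↔
      (∑ j, ((p : ℚ) ^ (k j)) • H (some j) = H none) := by
    rw [← Subtype.coe_inj]
    push_cast
    exact Iff.rfl
  rw [e1, ← b.repr.injective.eq_iff, Finsupp.ext_iff]
  refine forall_congr' fun i => ?_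
  rw [map_sum, Finsupp.finsetSum_apply]
  constructor
  · intro h2
    have h3 : ((∑ j, (p : ℤ) ^ (k j) * z (some j, i) : ℤ) : ℚ) = (z (none, i) : ℤ) := by
      push_cast
      rw [hz', ← h2, Finset.mul_sum]
      refine Finset.sum_congr rfl fun j _ => ?_
      rw [hz', map_smul, Finsupp.smul_apply, smul_eq_mul]
      ring
    exact_mod_cast h3
  · intro h2
    have h3 : ((∑ j, (p : ℤ) ^ (k j) * z (some j, i) : ℤ) : ℚ) = (z (none, i) : ℤ) := by
      rw [h2]
    push_cast at h3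
    rw [hz'] at h3
    apply mul_left_cancel₀ hD0
    rw [← h3, Finset.mul_sum]
    refine Finset.sum_congr rfl fun j _ => ?_
    rw [hz', map_smul, Finsupp.smul_apply, smul_eq_mul]
    ring

theorem main : S_UNIT → S_LIN := by
  classical
  intro hU p hp f hf s g
  obtain ⟨a, b, rfl⟩ := Polynomial.exists_eq_X_add_C_of_natDegree_le_one hf
  have hev : ∀ n : ℕ, (C a * X + C b).eval (n : AlgebraicClosure ℚ) = a * n + b := by
    intro n
    simp
  by_cases ha : a = 0
  · -- constant polynomials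
    by_cases hb : ∃ k : Fin s → ℕ, b = ∑ j, g j * (p : AlgebraicClosure ℚ) ^ (k j)
    · refine ⟨{{x | ∃ n : ℕ, x = ((0 : ℕ) : ℚ) + ((1 : ℕ) : ℚ) * n}}, Set.finite_singleton _, ?_, ?_⟩
      · intro A hA
        rw [Set.mem_singleton_iff] at hA
        exact Or.inl ⟨0, 1, hA⟩
      · intro n
        constructor
        · intro _
          exact ⟨_, rfl, n, by simp⟩
        · intro _
          obtain ⟨k, hk⟩ := hb
          refine ⟨k, ?_⟩
          rw [hev, ha, ← hk]
          ring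
    · refine ⟨∅, Set.finite_empty, fun A hA => absurd hA (Set.notMem_empty A), fun n => ?_⟩
      constructor
      · rintro ⟨k, hk⟩
        rw [hev, ha, zero_mul, zero_add] at hk
        exact absurd ⟨k, hk⟩ hb
      · rintro ⟨A, hA, _⟩
        exact absurd hA (Set.notMem_empty A)
  · -- degree one
    obtain ⟨φ, hφ⟩ := LinearMap.exists_leftInverse_of_injective
      (Algebra.linearMap ℚ (AlgebraicClosure ℚ))
      (LinearMap.ker_eq_bot.2 (algebraMap ℚ (AlgebraicClosure ℚ)).injective)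
    have hφ1 : ∀ q : ℚ, φ (q : AlgebraicClosure ℚ) = q := by
      intro q
      have h1 := LinearMap.congr_fun hφ q
      have h2 : (Algebra.linearMap ℚ (AlgebraicClosure ℚ)) q = (q : AlgebraicClosure ℚ) := by
        simp
      rw [LinearMap.comp_apply, h2] at h1
      exact h1
    let γ : Fin s → AlgebraicClosure ℚ := fun j => g j / a
    let β : AlgebraicClosure ℚ := b / a
    obtain ⟨r, v, w, hvw⟩ := exists_eqs (fun j => γ j - ((φ (γ j) : ℚ) : AlgebraicClosure ℚ))
      (β - ((φ β : ℚ) : AlgebraicClosure ℚ))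
    have hkey : ∀ n : ℕ, n ∈ solSet p (C a * X + C b) g ↔ ∃ k : Fin s → ℕ,
        (∀ i, ∑ j, (p : ℤ) ^ (k j) * v j i = w i) ∧
          (n : ℚ) = ∑ j, φ (γ j) * (p : ℚ) ^ (k j) - φ β := by
      intro n
      refine exists_congr fun k => ?_
      rw [hev, ← hvw p k]
      have h1 : (a * n + b = ∑ j, g j * (p : AlgebraicClosure ℚ) ^ (k j)) ↔
          ((n : AlgebraicClosure ℚ) = ∑ j, ((p : ℚ) ^ (k j)) • γ j - β) := by
        have h2 : ∑ j, ((p : ℚ) ^ (k j)) • γ j =
            (∑ j, g j * (p : AlgebraicClosure ℚ) ^ (k j)) / a := by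
          rw [Finset.sum_div]
          refine Finset.sum_congr rfl fun j _ => ?_
          rw [Algebra.smul_def, map_pow, map_natCast]
          show _ * (g j / a) = _
          ring
        rw [h2, ← sub_div, eq_div_iff ha]
        constructor
        · intro h
          rw [← h]
          ring
        · intro h
          linear_combination h
      have h3 : φ (∑ j, ((p : ℚ) ^ (k j)) • γ j - β) =
          ∑ j, φ (γ j) * (p : ℚ) ^ (k j) - φ β := by
        rw [map_sub, map_sum]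
        congr 1
        refine Finset.sum_congr rfl fun j _ => ?_
        rw [map_smul, smul_eq_mul, mul_comm]
      have h4 : ∑ j, ((p : ℚ) ^ (k j)) • (γ j - ((φ (γ j) : ℚ) : AlgebraicClosure ℚ)) =
          ∑ j, ((p : ℚ) ^ (k j)) • γ j -
            ((∑ j, φ (γ j) * (p : ℚ) ^ (k j) : ℚ) : AlgebraicClosure ℚ) := by
        push_cast
        rw [← Finset.sum_sub_distrib]
        refine Finset.sum_congr rfl fun j _ => ?_
        rw [smul_sub, Algebra.smul_def ((p : ℚ) ^ (k j)) ((φ (γ j) : ℚ) : AlgebraicClosure ℚ), map_pow,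
          map_natCast, mul_comm (φ (γ j) : AlgebraicClosure ℚ)]
      rw [h1, h4]
      constructor
      · intro h
        have h5 : (n : ℚ) = ∑ j, φ (γ j) * (p : ℚ) ^ (k j) - φ β := by
          rw [← h3, ← h]
          have h6 := hφ1 (n : ℚ)
          push_cast at h6
          exact h6.symm
        refine ⟨?_, h5⟩
        have h7 : ((n : ℚ) : AlgebraicClosure ℚ) =
            ((∑ j, φ (γ j) * (p : ℚ) ^ (k j) - φ β : ℚ) : AlgebraicClosure ℚ) := by rw [h5]
        push_cast at h7 ⊢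
        linear_combination -h + h7
      · rintro ⟨h, h5⟩
        have h7 : ((n : ℚ) : AlgebraicClosure ℚ) =
            ((∑ j, φ (γ j) * (p : ℚ) ^ (k j) - φ β : ℚ) : AlgebraicClosure ℚ) := by rw [h5]
        push_cast at h7 h ⊢
        linear_combination -h + h7
    obtain ⟨F0, hF, hL, hE⟩ := hU p hp.two_le r (Fin s) v w
    refine ⟨(fun K => {x | ∃ k ∈ K, x = ∑ j, φ (γ j) * (p : ℚ) ^ (k j) - φ β}) '' F0,
      hF.image _, ?_, ?_⟩
    · rintro _ ⟨K, hK, rfl⟩
      exact Or.inr (isP p (fun j => φ (γ j)) (φ β) (hL K hK))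
    · intro n
      rw [hkey]
      constructor
      · rintro ⟨k, hk, hn⟩
        have h1 : k ∈ ⋃₀ F0 := by
          rw [← hE]
          exact hk
        obtain ⟨K, hK, hkK⟩ := h1
        exact ⟨_, ⟨K, hK, rfl⟩, k, hkK, hn⟩
      · rintro ⟨_, ⟨K, hK, rfl⟩, k, hkK, hn⟩
        have h1 : k ∈ {k : Fin s → ℕ | ∀ i, ∑ j, (p : ℤ) ^ (k j) * v j i = w i} := by
          rw [hE]
          exact ⟨K, hK, hkK⟩
        exact ⟨k, h1, hn⟩

end Pool.Agent.Y791.LP.Lin
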