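import Mathlib
import Pool.Agent.Y791.LP.Pos

/-!
# No `p`-sum set inside the solutions contains infinitely many numbers `p ^ (2 a) + p ^ a + t`
(after `psum_case` of the starting file `LinkedExponents`, for real polynomials of any degree at least two)
-/

set_option autoImplicit false

open Polynomial Finset Filter Topology

namespace Pool.Agent.Y791.LP.Psum

open Pool.Agent.Results.MP_a804c6_nt.LinkedExponents Pool.Agent.Y791.LP.Pos

/-- the final count of exponents -/
lemma count (F : ℝ[X]) (hd : 2 ≤ F.natDegree) (t : ℝ)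
    (hpos : ∀ i ≤ F.natDegree, 0 < (taylor t F).coeff i) (lam : ℝ) (h0 : 0 < lam) (h1 : lam ≤ 1)
    (B : ℕ) (hB : F.natDegree + 2 ≤ B) :
    2 * F.natDegree + 2 ≤
      (F.comp (C lam * X ^ B + C (1 - lam) * X ^ 2 + X + C t)).support.card := by
  classical
  set R : ℝ[X] := C lam * X ^ B + C (1 - lam) * X ^ 2 + X with hR
  rw [comp_taylor]
  set H : ℝ[X] := taylor t F with hH
  have hHn : Nn H := nn_taylor hpos
  have hRn : Nn R := (((nn_C h0.le).mul (nn_X_pow B)).add
    ((nn_C (by linarith)).mul (nn_X_pow 2))).add nn_X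
  have hR1 : 0 < R.coeff 1 := by
    have e1 : ¬ (1 = B) := by omega
    rw [hR, coeff_add, coeff_add, coeff_C_mul, coeff_C_mul, coeff_X_pow, coeff_X_pow, coeff_X,
      if_neg e1, if_neg (by norm_num : ¬ (1 : ℕ) = 2), if_pos rfl]
    norm_num
  have hRB : 0 < R.coeff B := by
    have e1 : ¬ (1 = B) := by omega
    have e2 : ¬ (B = 2) := by omega
    rw [hR, coeff_add, coeff_add, coeff_C_mul, coeff_C_mul, coeff_X_pow, coeff_X_pow, coeff_X,
      if_pos rfl, if_neg e2, if_neg e1]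
    linarith
  have key : ∀ l j : ℕ, l + j ≤ F.natDegree → 0 < (H.comp R).coeff (l + j * B) := by
    intro l j hlj
    refine pos_comp hHn hRn (hpos (l + j) hlj) ?_
    have := pos_pow2 hRn hR1 hRB l j
    rwa [mul_one] at this
  set d := F.natDegree with hdd
  have hsub : (Finset.range (d + 1) ∪ (Finset.Ico B (B + d)) ∪ {2 * B}) ⊆ (H.comp R).support := by
    intro e he
    rw [mem_support_iff]
    simp only [Finset.mem_union, Finset.mem_range, Finset.mem_Ico, Finset.mem_singleton] at he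
    rcases he with (he | he) | he
    · have := key e 0 (by omega)
      rw [zero_mul, add_zero] at this
      exact this.ne'
    · have := key (e - B) 1 (by omega)
      rw [one_mul, Nat.sub_add_cancel he.1] at this
      exact this.ne'
    · have := key 0 2 (by omega)
      rw [zero_add, ← he] at this
      exact this.ne'
  have hcard : (Finset.range (d + 1) ∪ (Finset.Ico B (B + d)) ∪ {2 * B}).card = 2 * d + 2 := by
    rw [Finset.card_union_of_disjoint, Finset.card_union_of_disjoint, Finset.card_range,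
      Nat.card_Ico, Finset.card_singleton]
    · omega
    · rw [Finset.disjoint_left]
      intro x hx hx'
      rw [Finset.mem_range] at hx
      rw [Finset.mem_Ico] at hx'
      omega
    · rw [Finset.disjoint_left]
      intro x hx hx'
      rw [Finset.mem_union, Finset.mem_range, Finset.mem_Ico] at hx
      rw [Finset.mem_singleton] at hx'
      omega
  rw [← hcard]
  exact Finset.card_le_card hsub

theorem psum_case (F : ℝ[X]) (hF : F.Monic) (hd : 2 ≤ F.natDegree) (t : ℕ)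
    (hpos : ∀ i ≤ F.natDegree, 0 < (taylor (t : ℝ) F).coeff i)
    {s : ℕ} (hs : s ≤ 2 * F.natDegree + 1) (G : Fin s → ℝ) (hG : ∀ j, 0 < G j)
    (p : ℕ) (hp : 2 ≤ p) (m : ℕ) (c : Fin m → ℚ) (k : Fin m → ℕ)
    (hT : ∀ x : ℕ, (∃ n : Fin m → ℕ, (x : ℚ) = ∑ j, c j * (p : ℚ) ^ (k j * n j)) → SolF F G p x)
    (I : Set ℕ) (hI : I.Infinite)
    (hmem : ∀ a ∈ I, ∃ n : Fin m → ℕ,
      ((p ^ (2 * a) + p ^ a + t : ℕ) : ℚ) = ∑ j, c j * (p : ℚ) ^ (k j * n j)) : False := by
  choose! ν hν using hmem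
  have hp1 : (1 : ℝ) < p := by exact_mod_cast (by omega : 1 < p)
  have hp0 : (0 : ℝ) < p := by linarith
  have ht0 : (0 : ℝ) ≤ t := Nat.cast_nonneg t
  -- the ultrafilter
  have hne : (atTop ⊓ 𝓟 I : Filter ℕ).NeBot := by
    rw [← frequently_mem_iff_neBot]
    exact Nat.frequently_atTop_iff_infinite.2 hI
  set U : Ultrafilter ℕ := Ultrafilter.of (atTop ⊓ 𝓟 I) with hUdef
  have hU1 : (U : Filter ℕ) ≤ atTop ⊓ 𝓟 I := Ultrafilter.of_le _
  have hU : (U : Filter ℕ) ≤ atTop := hU1.trans inf_le_left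
  have hUI : ∀ᶠ a in (U : Filter ℕ), a ∈ I := by
    have : (U : Filter ℕ) ≤ 𝓟 I := hU1.trans inf_le_right
    exact this (mem_principal_self I)
  set Na : ℕ → ℝ := fun a => ((p : ℝ) ^ a) ^ 2 + (p : ℝ) ^ a + t with hNa
  have hpa : ∀ a : ℕ, 1 ≤ (p : ℝ) ^ a := fun a => one_le_pow₀ hp1.le
  have hpaTop : Tendsto (fun a : ℕ => (p : ℝ) ^ a) (U : Filter ℕ) atTop :=
    (tendsto_pow_atTop_atTop_of_one_lt hp1).mono_left hU
  have hNaTop : Tendsto Na (U : Filter ℕ) atTop := by
    refine tendsto_atTop_mono (fun a => ?_) hpaTop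
    simp only [hNa]
    nlinarith [hpa a, sq_nonneg ((p : ℝ) ^ a)]
  have hsumR : ∀ a ∈ I, Na a = ∑ j, (c j : ℝ) * (p : ℝ) ^ (k j * ν a j) := by
    intro a ha
    have h1 := hν a ha
    have h2 : (((p ^ (2 * a) + p ^ a + t : ℕ) : ℚ) : ℝ)
        = ((∑ j, c j * (p : ℚ) ^ (k j * ν a j) : ℚ) : ℝ) := by rw [h1]
    push_cast at h2
    rw [← h2, hNa]
    simp only
    ring
  have hm : 0 < m := by
    rcases Nat.eq_zero_or_pos m with h0 | h0
    · exfalso
      obtain ⟨a, ha⟩ := hI.nonempty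
      have h1 := hsumR a ha
      subst h0
      simp only [Finset.univ_eq_empty, Finset.sum_empty] at h1
      simp only [hNa] at h1
      nlinarith [hpa a, sq_nonneg ((p : ℝ) ^ a)]
    · exact h0
  have hmR : (0 : ℝ) < m := by exact_mod_cast hm
  -- a dominating positive term
  have hex : ∃ j0 : Fin m, ∀ᶠ a in (U : Filter ℕ), Na a / m ≤ (c j0 : ℝ) * (p : ℝ) ^ (k j0 * ν a j0) := by
    by_contra hcon
    push Not at hcon
    have h1 : ∀ j0 : Fin m, ∀ᶠ a in (U : Filter ℕ),
        (c j0 : ℝ) * (p : ℝ) ^ (k j0 * ν a j0) < Na a / m := by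
      intro j0
      exact hcon j0
    have h2 : ∀ᶠ a in (U : Filter ℕ), ∀ j0 : Fin m,
        (c j0 : ℝ) * (p : ℝ) ^ (k j0 * ν a j0) < Na a / m := Filter.eventually_all.2 h1
    obtain ⟨a, haI, ha⟩ := (hUI.and h2).exists
    have h3 : ∑ j, (c j : ℝ) * (p : ℝ) ^ (k j * ν a j) < ∑ j : Fin m, Na a / m := by
      have : Nonempty (Fin m) := ⟨⟨0, hm⟩⟩
      exact Finset.sum_lt_sum_of_nonempty Finset.univ_nonempty fun j _ => ha j
    rw [← hsumR a haI] at h3
    simp only [Finset.sum_const, Finset.card_univ, Fintype.card_fin, nsmul_eq_mul] at h3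
    rw [mul_div_cancel₀ _ hmR.ne'] at h3
    exact lt_irrefl _ h3
  obtain ⟨j0, hj0⟩ := hex
  set E : ℕ → ℝ := fun a => (c j0 : ℝ) * (p : ℝ) ^ (k j0 * ν a j0) with hE
  have hNapos : ∀ a, 0 < Na a := by
    intro a
    simp only [hNa]
    nlinarith [hpa a, sq_nonneg ((p : ℝ) ^ a)]
  have hcpos : 0 < (c j0 : ℝ) := by
    obtain ⟨a, ha⟩ := hj0.exists
    have h1 : 0 < (c j0 : ℝ) * (p : ℝ) ^ (k j0 * ν a j0) :=
      lt_of_lt_of_le (div_pos (hNapos a) hmR) ha
    exact pos_of_mul_pos_left h1 (pow_pos hp0 _).le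
  have hETop : Tendsto E (U : Filter ℕ) atTop :=
    tendsto_atTop_mono' _ hj0 (hNaTop.atTop_div_const hmR)
  have hk0 : 0 < k j0 := by
    rcases Nat.eq_zero_or_pos (k j0) with h0 | h0
    · exfalso
      obtain ⟨a, ha⟩ := (hETop.eventually_gt_atTop (c j0 : ℝ)).exists
      simp only [hE, h0, zero_mul, pow_zero, mul_one] at ha
      exact lt_irrefl _ ha
    · exact h0
  obtain ⟨K, L, hL, hdiv⟩ := exists_period p (c j0).den hp (c j0).den_pos
  have hKev : ∀ᶠ a in (U : Filter ℕ), K ≤ k j0 * ν a j0 := by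
    filter_upwards [hETop.eventually_gt_atTop ((c j0 : ℝ) * (p : ℝ) ^ K)] with a ha
    by_contra hcon
    push Not at hcon
    simp only [hE] at ha
    have : (p : ℝ) ^ (k j0 * ν a j0) ≤ (p : ℝ) ^ K := pow_le_pow_right₀ hp1.le hcon.le
    have := mul_le_mul_of_nonneg_left this hcpos.le
    linarith
  set M : ℕ := k j0 * L with hM
  have hMpos : 0 < M := Nat.mul_pos hk0 hL
  -- the ray of solutions
  have hray : ∀ a ∈ I, K ≤ k j0 * ν a j0 → ∀ i : ℕ, ∃ x : ℕ, SolF F G p x ∧
      (x : ℝ) = (Na a - E a) + E a * ((p : ℝ) ^ i) ^ M := by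
    intro a ha hKa i
    have hnum : 0 < (c j0).num := by
      rw [Rat.num_pos]
      exact_mod_cast hcpos
    obtain ⟨w, hw⟩ : (c j0).den ∣ p ^ (k j0 * ν a j0) * (p ^ (M * i) - 1) := by
      refine hdiv.trans (Nat.mul_dvd_mul (pow_dvd_pow p hKa) ?_)
      rw [hM, mul_comm (k j0) L, mul_assoc, pow_mul]
      exact Nat.sub_one_dvd_pow_sub_one _ _
    have hEw : E a * (((p : ℝ) ^ i) ^ M - 1) = ((c j0).num.toNat * w : ℕ) := by
      have h1 : (c j0 : ℝ) = ((c j0).num.toNat : ℝ) / ((c j0).den : ℝ) := by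
        have h2 : ((c j0).num.toNat : ℤ) = (c j0).num := Int.toNat_of_nonneg hnum.le
        have h3 : ((c j0).num.toNat : ℝ) = ((c j0).num : ℝ) := by
          exact_mod_cast h2
        rw [h3]
        exact_mod_cast (Rat.num_div_den (c j0)).symm
      have hden : ((c j0).den : ℝ) ≠ 0 := by
        exact_mod_cast (c j0).den_pos.ne'
      have h4 : (p : ℝ) ^ (k j0 * ν a j0) * (((p : ℝ) ^ i) ^ M - 1)
          = ((c j0).den : ℝ) * w := by
        have h5 : ((p ^ (k j0 * ν a j0) * (p ^ (M * i) - 1) : ℕ) : ℝ) = (((c j0).den * w : ℕ) : ℝ) := by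
          rw [hw]
        have h6 : 1 ≤ p ^ (M * i) := Nat.one_le_pow _ _ (by omega)
        push_cast [Nat.cast_sub h6] at h5
        rw [← h5, ← pow_mul, mul_comm i M]
      simp only [hE]
      rw [mul_assoc, h4, h1]
      push_cast
      field_simp
    have h10 : ((p ^ (2 * a) + p ^ a + t : ℕ) : ℝ) = Na a := by
      simp only [hNa]
      push_cast
      ring
    refine ⟨(p ^ (2 * a) + p ^ a + t) + (c j0).num.toNat * w, ?_, ?_⟩
    · apply hT
      refine ⟨Function.update (ν a) j0 (ν a j0 + L * i), ?_⟩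
      have h7 : (((p ^ (2 * a) + p ^ a + t) + (c j0).num.toNat * w : ℕ) : ℝ)
          = ∑ j, (c j : ℝ) * (p : ℝ) ^ (k j * Function.update (ν a) j0 (ν a j0 + L * i) j) := by
        have h8 : ∑ j, (c j : ℝ) * (p : ℝ) ^ (k j * Function.update (ν a) j0 (ν a j0 + L * i) j)
            - ∑ j, (c j : ℝ) * (p : ℝ) ^ (k j * ν a j) = E a * (((p : ℝ) ^ i) ^ M - 1) := by
          rw [← Finset.sum_sub_distrib, Finset.sum_eq_single j0]
          · rw [Function.update_self, Nat.mul_add, pow_add]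
            simp only [hE]
            have : k j0 * (L * i) = i * M := by rw [hM]; ring
            rw [this, pow_mul]
            ring
          · intro j _ hj
            rw [Function.update_of_ne hj, sub_self]
          · intro h
            exact absurd (Finset.mem_univ j0) h
        have h9 := hsumR a ha
        rw [Nat.cast_add, h10, ← hEw]
        linarith
      exact_mod_cast h7
    · rw [Nat.cast_add, h10, ← hEw]
      ring
  -- first level: `E a ≤ Na a + C₀`
  set C₀ : ℝ := |F.coeff (F.natDegree - 1)| with hC₀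
  have hC₀0 : 0 ≤ C₀ := abs_nonneg _
  have hEle : ∀ᶠ a in (U : Filter ℕ), E a ≤ Na a + C₀ := by
    filter_upwards [hUI, hKev, hj0] with a haI hKa hja
    have hEpos : 0 < E a := lt_of_lt_of_le (div_pos (hNapos a) hmR) hja
    have h1 := cluster_solF F G hG p hp (hyperfilter ℕ) (by
        rw [← Nat.cofinite_eq_atTop]; exact hyperfilter_le_cofinite)
      (F.comp (C (Na a - E a) + C (E a) * X ^ M))
      (Eventually.of_forall fun i => by
        obtain ⟨x, hx1, hx2⟩ := hray a haI hKa i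
        refine ⟨x, hx1, ?_⟩
        rw [hx2, eval_comp]
        simp)
    have h2 := h1.1 ((F.natDegree - 1) * M)
    rw [coeff_sub_one F hF (by omega) _ _ M hMpos] at h2
    have h3 : 0 ≤ F.coeff (F.natDegree - 1) + F.natDegree * (Na a - E a) :=
      nonneg_of_mul_nonneg_left h2 (pow_pos hEpos _)
    by_contra hcon
    push Not at hcon
    have h4 : F.coeff (F.natDegree - 1) ≤ C₀ := le_abs_self _
    have h5 : (1 : ℝ) ≤ F.natDegree := by exact_mod_cast (by omega : 1 ≤ F.natDegree)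
    have h6 : C₀ < E a - Na a := by linarith
    nlinarith
  -- second level: the ratio is eventually constant
  have hratio : ∀ᶠ a in (U : Filter ℕ), (c j0 : ℝ) * (p : ℝ) ^ ((k j0 * ν a j0 : ℕ) - (2 * a : ℕ) : ℤ) ≤ 2 + t + C₀
      ∧ 1 / m ≤ (c j0 : ℝ) * (p : ℝ) ^ ((k j0 * ν a j0 : ℕ) - (2 * a : ℕ) : ℤ) := by
    filter_upwards [hEle, hj0] with a ha1 ha2
    have h1 : (c j0 : ℝ) * (p : ℝ) ^ ((k j0 * ν a j0 : ℕ) - (2 * a : ℕ) : ℤ)
        = E a / ((p : ℝ) ^ a) ^ 2 := by
      rw [zpow_sub₀ hp0.ne', zpow_natCast, zpow_natCast, mul_comm 2 a, pow_mul (p : ℝ) a 2, ← mul_div_assoc]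
    rw [h1]
    have h2 : 0 < ((p : ℝ) ^ a) ^ 2 := by positivity
    have h3 := hpa a
    have h3' : 1 ≤ ((p : ℝ) ^ a) ^ 2 := one_le_pow₀ h3
    constructor
    · rw [div_le_iff₀ h2]
      simp only [hNa] at ha1
      nlinarith [mul_nonneg ht0 (sub_nonneg.2 h3'), mul_nonneg hC₀0 (sub_nonneg.2 h3')]
    · rw [le_div_iff₀ h2]
      have h4 : 1 / (m : ℝ) * ((p : ℝ) ^ a) ^ 2 ≤ Na a / m := by
        rw [div_mul_eq_mul_div, one_mul]
        refine div_le_div_of_nonneg_right ?_ hmR.le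
        simp only [hNa]
        linarith
      exact h4.trans ha2
  have hconst : ∃ z : ℤ, ∀ᶠ a in (U : Filter ℕ), ((k j0 * ν a j0 : ℕ) - (2 * a : ℕ) : ℤ) = z := by
    rcases const_or_tendsto_zero (p : ℝ) hp1 U
      (fun a => ((k j0 * ν a j0 : ℕ) - (2 * a : ℕ) : ℤ)) (c j0 : ℝ) ((2 + t + C₀) / (c j0 : ℝ)) hcpos
      (by
        filter_upwards [hratio] with a ha
        rw [le_div_iff₀ hcpos, mul_comm]
        exact ha.1) with h | h
    · exact h
    · exfalso
      have h1 := h.eventually_lt_const (show (0 : ℝ) < 1 / m by positivity)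
      obtain ⟨a, ha1, ha2⟩ := (h1.and hratio).exists
      exact absurd ha1 (not_lt.2 ha2.2)
  obtain ⟨z, hz⟩ := hconst
  set lam : ℝ := (c j0 : ℝ) * (p : ℝ) ^ z with hlam
  have hlampos : 0 < lam := mul_pos hcpos (zpow_pos hp0 _)
  have hElam : ∀ᶠ a in (U : Filter ℕ), E a = lam * ((p : ℝ) ^ a) ^ 2 := by
    filter_upwards [hz] with a ha
    have h1 : ((k j0 * ν a j0 : ℕ) : ℤ) = z + ((a * 2 : ℕ) : ℤ) := by
      push_cast at ha ⊢
      linarith
    simp only [hE, hlam]
    rw [← zpow_natCast (p : ℝ) (k j0 * ν a j0), h1, zpow_add₀ hp0.ne', zpow_natCast, pow_mul]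
    ring
  have hlam1 : lam ≤ 1 := by
    by_contra hcon
    push Not at hcon
    obtain ⟨a, ⟨ha1, ha2⟩, ha3⟩ := ((hEle.and hElam).and
      (hpaTop.eventually_gt_atTop ((1 + t + C₀) / (lam - 1)))).exists
    rw [ha2] at ha1
    simp only [hNa] at ha1
    have h3 := hpa a
    rw [div_lt_iff₀ (by linarith)] at ha3
    nlinarith [mul_nonneg ht0 (sub_nonneg.2 h3), mul_nonneg hC₀0 (sub_nonneg.2 h3)]
  -- final polynomial
  set T : ℕ := 2 * F.natDegree with hTd
  have hfin := cluster_solF F G hG p hp U hU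
    (F.comp (C lam * X ^ (2 + T * M) + C (1 - lam) * X ^ 2 + X + C (t : ℝ))) (by
      filter_upwards [hUI, hKev, hElam] with a haI hKa hEa
      obtain ⟨x, hx1, hx2⟩ := hray a haI hKa (T * a)
      refine ⟨x, hx1, ?_⟩
      rw [hx2, hEa, eval_comp]
      simp only [hNa]
      simp only [eval_pow, eval_add, eval_mul, eval_C, eval_X]
      have h1 : ((p : ℝ) ^ (T * a)) ^ M = ((p : ℝ) ^ a) ^ (T * M) := by
        rw [← pow_mul, ← pow_mul]
        congr 1
        ring
      rw [h1, pow_add]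
      congr 1
      ring)
  obtain ⟨_, hcard⟩ := hfin
  have hB : F.natDegree + 2 ≤ 2 + T * M := by
    have : T ≤ T * M := Nat.le_mul_of_pos_right T hMpos
    omega
  have := count F hd t hpos lam hlampos hlam1 (2 + T * M) hB
  omega

end Pool.Agent.Y791.LP.Psum
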