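import Pool.Agent.Y791.LP.Stm

/-!
# The product of linked families (job LX-PROD of helper791, proved by helper409)
-/

set_option autoImplicit false

namespace Pool.Agent.Y791.LP.Prod

open Pool.Agent.Y791.LP

theorem main : S_PROD := by
  classical
  intro ι P _ K₁ K₂ h1 h2
  obtain ⟨m1, π1, δ1, e1, hδ1, rfl⟩ := h1
  obtain ⟨m2, π2, δ2, e2, hδ2, rfl⟩ := h2
  refine ⟨m1 + m2, fun j => if h : P j then Fin.castAdd m2 (π1 ⟨j, h⟩) else
    Fin.natAdd m1 (π2 ⟨j, h⟩), fun j => if h : P j then δ1 ⟨j, h⟩ else δ2 ⟨j, h⟩,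
    fun j => if h : P j then e1 ⟨j, h⟩ else e2 ⟨j, h⟩, ?_, ?_⟩
  · intro j
    by_cases h : P j
    · simp only [dif_pos h]
      exact hδ1 _
    · simp only [dif_neg h]
      exact hδ2 _
  · ext k
    simp only [Set.mem_setOf_eq]
    constructor
    · rintro ⟨⟨n1, hn1⟩, n2, hn2⟩
      refine ⟨Fin.append n1 n2, fun j => ?_⟩
      by_cases h : P j
      · simp only [dif_pos h, Fin.append_left]
        exact hn1 ⟨j, h⟩
      · simp only [dif_neg h, Fin.append_right]
        exact hn2 ⟨j, h⟩
    · rintro ⟨n, hn⟩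
      refine ⟨⟨fun i => n (Fin.castAdd m2 i), fun j => ?_⟩, fun i => n (Fin.natAdd m1 i),
        fun j => ?_⟩
      · have := hn j
        simp only [dif_pos j.2] at this
        exact this
      · have := hn j
        simp only [dif_neg j.2] at this
        exact this

end Pool.Agent.Y791.LP.Prod
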